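import Mathlib
import Pool.Agent.Lib.MP_66748c_al.Defs
import Pool.Agent.Lib.MP_66748c_al.NotHolonomic

universe u

namespace Pool.Agent.Results.MP_66748c_al.ExtensionNotHolonomic

open Pool.Agent.Lib.MP_66748c_al

/-- Over every field `k` of characteristic `p > 0` and in every number `n ≥ 1` of variables there is
a module `M` over the ring of differential operators of `R = k[x_1, ..., x_n]` with a submodule
`M'` such that `M'` and `M / M'` are both isomorphic to `R`, hence holonomic, and `M` is not
holonomic. -/
theorem result (k : Type u) [Field k] (p : ℕ) [Fact p.Prime] [CharP k p] (n : ℕ) (hn : 1 ≤ n) :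
    ∃ (M : Type u) (_ : AddCommGroup M) (_ : Module (DOp k n) M) (_ : Module k M)
      (_ : IsScalarTower k (DOp k n) M) (M' : Submodule (DOp k n) M),
      Nonempty (M' ≃ₗ[DOp k n] MvPolynomial (Fin n) k) ∧
      Nonempty ((M ⧸ M') ≃ₗ[DOp k n] MvPolynomial (Fin n) k) ∧
      Holonomic k n M' ∧ Holonomic k n (M ⧸ M') ∧ ¬ Holonomic k n M := by
  let i : Fin n := ⟨0, hn⟩
  let g := gseq p k i
  have hg := gseq_admissible p k i
  exact ⟨Ext g hg, inferInstance, inferInstance, inferInstance, inferInstance, sub g hg,
    ⟨subEquiv g hg⟩, ⟨quotEquiv g hg⟩, holonomic_R.of_equiv (subEquiv g hg),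
    holonomic_R.of_equiv (quotEquiv g hg), not_holonomic p k i⟩

end Pool.Agent.Results.MP_66748c_al.ExtensionNotHolonomic
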